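import Mathlib

/-!
# Exact factorizations of infinite groups into two infinite subsets

Every infinite group `G` (in particular every countably infinite one) has subsets `A`, `B`,
both infinite, such that every element of `G` is `a * b` for exactly one pair `(a, b)` in
`A × B`.

Outline.  `Fac G` is the property.  It passes from a subgroup to the whole group (multiply `B`
by a transversal) and from a quotient to the whole group (take a section of `A` and the full
preimage of `B`).  Let `F` be the FC-centre of a countable group `G`.  If `F` has an element of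
infinite order or all nontrivial centralizers of `G` have infinite index, a greedy construction
works; the only obstruction to a greedy step is a covering of the group by finitely many
translates of sets of square roots, and those lie in centralizers (B. H. Neumann's lemma).  If `F`
is infinite and torsion, it is locally finite and transversals of finite subgroups are
multiplied alternately on the two sides.  If `F` is finite, all nontrivial centralizers of
`G ⧸ F` have infinite index.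
-/

namespace Pool.Agent.Results.MP_b3a091_al.ExactFactorization

open Set
open scoped Pointwise

/-- The group `G` has an exact factorization with both factors infinite. -/
def Fac (G : Type*) [Group G] : Prop :=
  ∃ A B : Set G, A.Infinite ∧ B.Infinite ∧
    ∀ g : G, ∃! p : G × G, p.1 ∈ A ∧ p.2 ∈ B ∧ p.1 * p.2 = g

/-- Multiplication is injective on `A × B`. -/
def MulInj {G : Type*} [Group G] (A B : Set G) : Prop :=
  ∀ a₁ ∈ A, ∀ a₂ ∈ A, ∀ b₁ ∈ B, ∀ b₂ ∈ B, a₁ * b₁ = a₂ * b₂ → a₁ = a₂ ∧ b₁ = b₂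

/-- A step-by-step construction. -/
theorem fac_of_extension {G : Type*} [Group G] [Countable G] (P : Set G → Set G → Prop)
    (A₀ B₀ : Set G) (h₀ : P A₀ B₀) (hinj : ∀ A B, P A B → MulInj A B)
    (hext : ∀ A B, P A B → ∀ g : G, ∃ A' B', A ⊂ A' ∧ B ⊂ B' ∧ P A' B' ∧
      ∃ a ∈ A', ∃ b ∈ B', a * b = g) : Fac G := by
  classical
  obtain ⟨e, he⟩ := exists_surjective_nat G
  choose! fA fB h1 h2 h3 h4 using hext
  let next : ℕ → {p : Set G × Set G // P p.1 p.2} → {p : Set G × Set G // P p.1 p.2} :=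
    fun n p => ⟨(fA p.1.1 p.1.2 (e n), fB p.1.1 p.1.2 (e n)), h3 _ _ p.2 _⟩
  let seq : ℕ → {p : Set G × Set G // P p.1 p.2} :=
    fun n => Nat.rec ⟨(A₀, B₀), h₀⟩ (fun n p => next n p) n
  have hseq : ∀ n, seq (n + 1) = next n (seq n) := fun n => rfl
  let As : ℕ → Set G := fun n => (seq n).1.1
  let Bs : ℕ → Set G := fun n => (seq n).1.2
  have hP : ∀ n, P (As n) (Bs n) := fun n => (seq n).2
  have hA1 : ∀ n, As n ⊂ As (n + 1) := fun n => by
    have := h1 _ _ (hP n) (e n)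
    simpa [As, Bs, hseq, next] using this
  have hB1 : ∀ n, Bs n ⊂ Bs (n + 1) := fun n => by
    have := h2 _ _ (hP n) (e n)
    simpa [As, Bs, hseq, next] using this
  have hAm : Monotone As := monotone_nat_of_le_succ fun n => (hA1 n).subset
  have hBm : Monotone Bs := monotone_nat_of_le_succ fun n => (hB1 n).subset
  have hcov : ∀ n, ∃ a ∈ As (n + 1), ∃ b ∈ Bs (n + 1), a * b = e n := fun n => by
    have := h4 _ _ (hP n) (e n)
    simpa [As, Bs, hseq, next] using this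
  have infin : ∀ S : ℕ → Set G, Monotone S → (∀ n, S n ⊂ S (n + 1)) → (⋃ n, S n).Infinite := by
    intro S hS hlt hfin
    have hstr : StrictMono S := strictMono_nat_of_lt_succ hlt
    have hsub : Set.range S ⊆ 𝒫 (⋃ n, S n) := by
      rintro _ ⟨n, rfl⟩
      exact subset_iUnion S n
    exact Set.infinite_range_of_injective hstr.injective (hfin.finite_subsets.subset hsub)
  refine ⟨⋃ n, As n, ⋃ n, Bs n, infin As hAm hA1, infin Bs hBm hB1, ?_⟩
  intro g
  obtain ⟨n, rfl⟩ := he g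
  obtain ⟨a, ha, b, hb, hab⟩ := hcov n
  refine ⟨(a, b), ⟨mem_iUnion.2 ⟨n + 1, ha⟩, mem_iUnion.2 ⟨n + 1, hb⟩, hab⟩, ?_⟩
  rintro ⟨a', b'⟩ ⟨ha', hb', hab'⟩
  obtain ⟨i, hi⟩ := mem_iUnion.1 ha'
  obtain ⟨j, hj⟩ := mem_iUnion.1 hb'
  have m1 : n + 1 ≤ max (n + 1) (max i j) := by omega
  have m2 : i ≤ max (n + 1) (max i j) := by omega
  have m3 : j ≤ max (n + 1) (max i j) := by omega
  obtain ⟨h, h'⟩ := hinj _ _ (hP (max (n + 1) (max i j))) a' (hAm m2 hi) a
    (hAm m1 ha) b' (hBm m3 hj) b (hBm m1 hb) (hab'.trans hab.symm)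
  simp [h, h']

/-- The greedy construction. -/
theorem fac_of_greedy {G : Type*} [Group G] [Countable G] [Infinite G]
    (H : ∀ S : Set (G × G), S.Finite → (∀ p ∈ S, p.2 ≠ 1) → ∀ E : Set G, E.Finite →
      ∃ a ∉ E, ∀ p ∈ S, (p.1 * a) * (p.1 * a) ≠ p.2) : Fac G := by
  classical
  refine fac_of_extension (fun A B => A.Finite ∧ B.Finite ∧ MulInj A B) ∅ ∅
    ⟨finite_empty, finite_empty, fun a ha => by simp at ha⟩ (fun A B h => h.2.2) ?_
  rintro A B ⟨hA, hB, hAB⟩ g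
  -- the main step, for `g` outside `A * B`
  have main : ∀ g : G, (∀ a ∈ A, ∀ b ∈ B, a * b ≠ g) → ∃ A' B', A ⊂ A' ∧ B ⊂ B' ∧
      (A'.Finite ∧ B'.Finite ∧ MulInj A' B') ∧ ∃ a ∈ A', ∃ b ∈ B', a * b = g := by
    intro g hg
    let S : Set (G × G) := (fun q : G × G => (q.2 * g⁻¹, q.2 * g⁻¹ * q.1)) '' (A ×ˢ B)
    have hS : S.Finite := (hA.prod hB).image _
    have hS1 : ∀ p ∈ S, p.2 ≠ 1 := by
      rintro _ ⟨⟨a, b⟩, ⟨ha, hb⟩, rfl⟩ h
      simp only at h ha hb
      apply hg a ha b hb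
      have h2 : a = (b * g⁻¹)⁻¹ := eq_inv_of_mul_eq_one_right h
      rw [h2]
      group
    let E1 : Set G := (fun q : (G × G) × G => q.1.1 * q.1.2 * q.2⁻¹) '' ((A ×ˢ B) ×ˢ B)
    let E2 : Set G := (fun q : (G × G) × G => g * q.1.2⁻¹ * q.1.1⁻¹ * q.2) '' ((A ×ˢ B) ×ˢ A)
    let E3 : Set G := (fun b => g * b⁻¹) '' B
    have hE : (E1 ∪ E2 ∪ E3 ∪ A).Finite :=
      (((((hA.prod hB).prod hB).image _).union (((hA.prod hB).prod hA).image _)).union
        (hB.image _)).union hA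
    obtain ⟨a, ha, haS⟩ := H S hS hS1 _ hE
    simp only [mem_union, not_or] at ha
    obtain ⟨⟨⟨hE1, hE2⟩, hE3⟩, haA⟩ := ha
    have k1 : ∀ a₁ ∈ A, ∀ b₁ ∈ B, ∀ b₂ ∈ B, a₁ * b₁ ≠ a * b₂ := by
      intro a₁ h1 b₁ h2 b₂ h3 h
      apply hE1
      refine ⟨((a₁, b₁), b₂), ⟨⟨h1, h2⟩, h3⟩, ?_⟩
      simp only
      rw [h]
      group
    have k2 : ∀ a₁ ∈ A, ∀ b₁ ∈ B, ∀ a₂ ∈ A, a₁ * b₁ ≠ a₂ * (a⁻¹ * g) := by
      intro a₁ h1 b₁ h2 a₂ h3 h
      apply hE2
      refine ⟨((a₁, b₁), a₂), ⟨⟨h1, h2⟩, h3⟩, ?_⟩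
      simp only
      have h' : a = g * (b₁⁻¹ * a₁⁻¹) * a₂ := by
        rw [← mul_inv_rev, h]
        group
      rw [mul_assoc g, ← h']
    have k3 : ∀ a₁ ∈ A, ∀ b₁ ∈ B, a₁ * b₁ ≠ a * (a⁻¹ * g) := by
      intro a₁ h1 b₁ h2 h
      apply hg a₁ h1 b₁ h2
      rw [h]
      group
    have k4 : ∀ a₂ ∈ A, ∀ b₁ ∈ B, a * b₁ ≠ a₂ * (a⁻¹ * g) := by
      intro a₂ h1 b₁ h2 h
      apply haS (b₁ * g⁻¹, b₁ * g⁻¹ * a₂) ⟨(a₂, b₁), ⟨h1, h2⟩, rfl⟩
      simp only
      have h3 : a₂ = a * b₁ * (a⁻¹ * g)⁻¹ := by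
        rw [h]
        group
      rw [h3]
      group
    have k5 : a⁻¹ * g ∉ B := by
      intro h
      apply hE3
      exact ⟨_, h, by group⟩
    refine ⟨insert a A, insert (a⁻¹ * g) B, ssubset_insert haA, ssubset_insert k5,
      ⟨hA.insert _, hB.insert _, ?_⟩, a, mem_insert _ _, a⁻¹ * g, mem_insert _ _, by group⟩
    rintro a₁ (rfl | ha₁) a₂ (rfl | ha₂) b₁ (rfl | hb₁) b₂ (rfl | hb₂) h
    · exact ⟨rfl, rfl⟩
    · exact ⟨rfl, mul_left_cancel h⟩
    · exact ⟨rfl, mul_left_cancel h⟩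
    · exact ⟨rfl, mul_left_cancel h⟩
    · exact ⟨mul_right_cancel h, rfl⟩
    · exact (k3 _ ha₂ _ hb₂ h.symm).elim
    · exact (k4 _ ha₂ _ hb₁ h).elim
    · exact (k1 _ ha₂ _ hb₂ _ hb₁ h.symm).elim
    · exact ⟨mul_right_cancel h, rfl⟩
    · exact (k4 _ ha₁ _ hb₂ h.symm).elim
    · exact (k3 _ ha₁ _ hb₁ h).elim
    · exact (k1 _ ha₁ _ hb₁ _ hb₂ h).elim
    · exact ⟨mul_right_cancel h, rfl⟩
    · exact (k2 _ ha₂ _ hb₂ _ ha₁ h.symm).elim
    · exact (k2 _ ha₁ _ hb₁ _ ha₂ h).elim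
    · exact hAB _ ha₁ _ ha₂ _ hb₁ _ hb₂ h
  by_cases hgAB : ∀ a ∈ A, ∀ b ∈ B, a * b ≠ g
  · exact main g hgAB
  · push Not at hgAB
    obtain ⟨a, ha, b, hb, hab⟩ := hgAB
    have hfin : ((fun q : G × G => q.1 * q.2) '' (A ×ˢ B)).Finite := (hA.prod hB).image _
    obtain ⟨g', hg'⟩ := hfin.exists_notMem
    obtain ⟨A', B', hA', hB', hP, -⟩ := main g' (fun a ha b hb h => hg' ⟨(a, b), ⟨ha, hb⟩, h⟩)
    exact ⟨A', B', hA', hB', hP, a, hA'.subset ha, b, hB'.subset hb, hab⟩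

/-- A group all of whose nontrivial centralizers have infinite index. -/
theorem fac_of_icc {G : Type*} [Group G] [Countable G] [Infinite G]
    (hicc : ∀ c : G, c ≠ 1 → ¬ (Subgroup.centralizer {c}).FiniteIndex) : Fac G := by
  classical
  apply fac_of_greedy
  intro S hS hS1 E hE
  by_contra hcon
  push Not at hcon
  let s : Finset (G × Subgroup G) :=
    hS.toFinset.image (fun p => (p.1⁻¹, Subgroup.centralizer {p.2})) ∪
      hE.toFinset.image (fun e => (e, ⊥))
  have hcovers : ⋃ i ∈ s, (Prod.fst i) • ((Prod.snd i : Subgroup G) : Set G) = Set.univ := by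
    apply eq_univ_of_forall
    intro a
    by_cases haE : a ∈ E
    · refine mem_biUnion (x := (a, (⊥ : Subgroup G))) ?_ ?_
      · simp [s, haE]
      · simp
    · obtain ⟨p, hp, hpa⟩ := hcon a haE
      refine mem_biUnion (x := (p.1⁻¹, Subgroup.centralizer {p.2})) ?_ ?_
      · simp only [s, Finset.coe_union, Finset.coe_image, Finite.coe_toFinset, mem_union, mem_image]
        exact Or.inl ⟨p, hp, rfl⟩
      · rw [mem_leftCoset_iff]
        simp only [inv_inv, SetLike.mem_coe, Subgroup.mem_centralizer_singleton_iff]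
        rw [← hpa]
        group
  obtain ⟨k, hk, hfi⟩ := Subgroup.exists_finiteIndex_of_leftCoset_cover hcovers
  simp only [s, Finset.mem_union, Finset.mem_image, Finite.mem_toFinset] at hk
  rcases hk with ⟨p, hp, rfl⟩ | ⟨e, he, rfl⟩
  · exact hicc _ (hS1 p hp) hfi
  · have : Finite G := by
      have h1 : Finite (G ⧸ (⊥ : Subgroup G)) := Subgroup.finite_quotient_of_finiteIndex
      exact Finite.of_equiv _ (QuotientGroup.quotientBot (G := G)).toEquiv
    exact not_finite G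

/-- Passing from a subgroup to the group. -/
theorem fac_of_subgroup {G : Type*} [Group G] (H : Subgroup G) (h : Fac H) : Fac G := by
  obtain ⟨A, B, hA, hB, hAB⟩ := h
  obtain ⟨T, hT, h1T⟩ := H.exists_isComplement_right 1
  have hT' : ∀ h₁ ∈ H, ∀ h₂ ∈ H, ∀ t₁ ∈ T, ∀ t₂ ∈ T, h₁ * t₁ = h₂ * t₂ → h₁ = h₂ ∧ t₁ = t₂ := by
    intro h₁ m₁ h₂ m₂ t₁ n₁ t₂ n₂ h
    have := @hT.1 (⟨h₁, m₁⟩, ⟨t₁, n₁⟩) (⟨h₂, m₂⟩, ⟨t₂, n₂⟩) h
    simpa using this
  refine ⟨(fun a : H => (a : G)) '' A, (fun q : H × G => (q.1 : G) * q.2) '' (B ×ˢ T), ?_, ?_, ?_⟩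
  · exact hA.image Subtype.val_injective.injOn
  · refine (hB.image (f := fun b : H => (b : G)) Subtype.val_injective.injOn).mono ?_
    rintro _ ⟨b, hb, rfl⟩
    exact ⟨(b, 1), ⟨hb, h1T⟩, by simp⟩
  · intro g
    obtain ⟨⟨⟨h, hh⟩, ⟨t, ht⟩⟩, hht⟩ := hT.2 g
    simp only at hht
    obtain ⟨⟨a, b⟩, ⟨ha, hb, hab⟩, huniq⟩ := hAB ⟨h, hh⟩
    simp only at ha hb hab
    refine ⟨((a : G), (b : G) * t), ⟨⟨a, ha, rfl⟩, ⟨(b, t), ⟨hb, ht⟩, rfl⟩, ?_⟩, ?_⟩
    · simp only
      rw [← mul_assoc, ← hht]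
      congr 1
      rw [← Subgroup.coe_mul, hab]
    · rintro ⟨x, y⟩ ⟨⟨a', ha', hx⟩, ⟨⟨b', t'⟩, ⟨hb', ht'⟩, hy⟩, hxy⟩
      simp only at hx hy hxy ha' hb' ht'
      subst hx hy
      rw [← hht, ← mul_assoc] at hxy
      obtain ⟨e1, e2⟩ := hT' _ (H.mul_mem a'.2 b'.2) _ hh _ ht' _ ht hxy
      subst e2
      have := huniq (a', b') ⟨ha', hb', Subtype.ext e1⟩
      simp only [Prod.mk.injEq] at this
      obtain ⟨rfl, rfl⟩ := this
      rfl

/-- Passing from a quotient to the group. -/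
theorem fac_of_quotient {G : Type*} [Group G] (N : Subgroup G) [N.Normal] (h : Fac (G ⧸ N)) :
    Fac G := by
  obtain ⟨A, B, hA, hB, hAB⟩ := h
  refine ⟨Quotient.out '' A, {b : G | (b : G ⧸ N) ∈ B}, ?_, ?_, ?_⟩
  · exact hA.image Quotient.out_injective.injOn
  · intro hfin
    apply hB
    refine (hfin.image (fun b : G => (b : G ⧸ N))).subset ?_
    intro b hb
    obtain ⟨x, rfl⟩ := QuotientGroup.mk_surjective b
    exact ⟨x, hb, rfl⟩
  · intro g
    obtain ⟨⟨a, b⟩, ⟨ha, hb, hab⟩, huniq⟩ := hAB (g : G ⧸ N)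
    simp only at ha hb hab
    refine ⟨(a.out, a.out⁻¹ * g), ⟨⟨a, ha, rfl⟩, ?_, by simp⟩, ?_⟩
    · simp only [mem_ofPred_eq, QuotientGroup.mk_mul, QuotientGroup.mk_inv]
      have h1 : ((Quotient.out a : G) : G ⧸ N) = a := QuotientGroup.out_eq' a
      rw [h1, ← hab]
      simpa using hb
    · rintro ⟨x, y⟩ ⟨⟨a', ha', hx⟩, hy, hxy⟩
      simp only at hx hy hxy
      subst hx
      have h1 : ((Quotient.out a' : G) : G ⧸ N) = a' := QuotientGroup.out_eq' a'
      have := huniq (a', (y : G ⧸ N)) ⟨ha', hy, by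
        simp only
        rw [← hxy, QuotientGroup.mk_mul, h1]⟩
      simp only [Prod.mk.injEq] at this
      obtain ⟨rfl, -⟩ := this
      simp only [Prod.mk.injEq, true_and]
      rw [← hxy]
      simp

/-- An infinite cyclic group has an exact factorization with infinite factors. -/
theorem fac_of_not_isOfFinOrder {G : Type*} [Group G] (g : G) (hg : ¬ IsOfFinOrder g) :
    Fac G := by
  apply fac_of_subgroup (Subgroup.zpowers g)
  have hinf : Infinite (Subgroup.zpowers g) := by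
    rw [← not_finite_iff_infinite]
    intro hf
    exact hg (finite_zpowers.1 (Set.toFinite _))
  have hcount : Countable (Subgroup.zpowers g) := inferInstance
  apply fac_of_greedy
  intro S hS hS1 E hE
  have hfin : (E ∪ ⋃ p ∈ S, {a : Subgroup.zpowers g | (p.1 * a) * (p.1 * a) = p.2}).Finite := by
    refine hE.union (hS.biUnion fun p hp => ?_)
    apply Set.Subsingleton.finite
    intro a ha b hb
    simp only [mem_ofPred_eq] at ha hb
    have h1 : (p.1 * a) * (p.1 * a) = (p.1 * b) * (p.1 * b) := ha.trans hb.symm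
    have key : ∀ x y : Subgroup.zpowers g, x * x = y * y → x = y := by
      rintro ⟨x, i, rfl⟩ ⟨y, j, rfl⟩ h
      have h2 : g ^ (i + i) = g ^ (j + j) := by
        have := congrArg Subtype.val h
        simpa [zpow_add] using this
      have h3 : i + i = j + j := (injective_zpow_iff_not_isOfFinOrder.2 hg) h2
      have : i = j := by omega
      subst this
      rfl
    exact mul_left_cancel (key _ _ h1)
  obtain ⟨a, ha⟩ := hfin.exists_notMem
  simp only [mem_union, mem_iUnion, not_or, not_exists, mem_ofPred_eq] at ha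
  exact ⟨a, ha.1, fun p hp => ha.2 p hp⟩

/-- Countable locally finite infinite groups. -/
theorem fac_of_locallyFinite {G : Type*} [Group G] [Countable G] [Infinite G]
    (hlf : ∀ S : Set G, S.Finite → ((Subgroup.closure S : Subgroup G) : Set G).Finite) :
    Fac G := by
  classical
  refine fac_of_extension (fun A B => MulInj A B ∧ ∃ K : Subgroup G, (K : Set G).Finite ∧
    ∀ x, x ∈ K ↔ ∃ a ∈ A, ∃ b ∈ B, a * b = x) {1} {1}
    ⟨?_, ⊥, by simp, ?_⟩ (fun A B h => h.1) ?_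
  · rintro a₁ rfl a₂ rfl b₁ rfl b₂ rfl -
    exact ⟨rfl, rfl⟩
  · intro x
    simp [Subgroup.mem_bot, eq_comm]
  rintro A B ⟨hAB, K, hK, hKm⟩ g
  -- right step
  have right : ∀ (A B : Set G) (K K' : Subgroup G), MulInj A B → 
      (∀ x, x ∈ K ↔ ∃ a ∈ A, ∃ b ∈ B, a * b = x) → K ≤ K' → ¬ K' ≤ K →
      ∃ B', B ⊂ B' ∧ MulInj A B' ∧ (∀ x, x ∈ K' ↔ ∃ a ∈ A, ∃ b ∈ B', a * b = x) := by
    intro A B K K' hAB hKm hKK' hlt
    obtain ⟨T, hT, h1T⟩ := K.exists_isComplement_right 1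
    have hT' : ∀ h₁ ∈ K, ∀ h₂ ∈ K, ∀ t₁ ∈ T, ∀ t₂ ∈ T, h₁ * t₁ = h₂ * t₂ → h₁ = h₂ ∧ t₁ = t₂ := by
      intro h₁ m₁ h₂ m₂ t₁ n₁ t₂ n₂ h
      have := @hT.1 (⟨h₁, m₁⟩, ⟨t₁, n₁⟩) (⟨h₂, m₂⟩, ⟨t₂, n₂⟩) h
      simpa using this
    let B' : Set G := {x | ∃ b ∈ B, ∃ t ∈ T, t ∈ K' ∧ b * t = x}
    have hmem : ∀ x, x ∈ K' ↔ ∃ a ∈ A, ∃ b ∈ B', a * b = x := by
      intro x
      constructor
      · intro hx
        obtain ⟨⟨⟨h, hh⟩, ⟨t, ht⟩⟩, hht⟩ := hT.2 x
        simp only at hht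
        obtain ⟨a, ha, b, hb, hab⟩ := (hKm h).1 hh
        refine ⟨a, ha, b * t, ⟨b, hb, t, ht, ?_, rfl⟩, ?_⟩
        · have : t = h⁻¹ * x := by rw [← hht]; group
          rw [this]
          exact K'.mul_mem (K'.inv_mem (hKK' hh)) hx
        · rw [← mul_assoc, hab, hht]
      · rintro ⟨a, ha, _, ⟨b, hb, t, ht, htK', rfl⟩, rfl⟩
        rw [← mul_assoc]
        exact K'.mul_mem (hKK' ((hKm _).2 ⟨a, ha, b, hb, rfl⟩)) htK'
    have hsub : B ⊆ B' := fun b hb => ⟨b, hb, 1, h1T, K'.one_mem, mul_one b⟩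
    refine ⟨B', ⟨hsub, ?_⟩, ?_, hmem⟩
    · intro hsub'
      apply hlt
      intro x hx
      obtain ⟨a, ha, b, hb, hab⟩ := (hmem x).1 hx
      exact (hKm x).2 ⟨a, ha, b, hsub' hb, hab⟩
    · rintro a₁ ha₁ a₂ ha₂ _ ⟨b₁, hb₁, t₁, ht₁, -, rfl⟩ _ ⟨b₂, hb₂, t₂, ht₂, -, rfl⟩ h
      rw [← mul_assoc, ← mul_assoc] at h
      obtain ⟨h1, h2⟩ := hT' _ ((hKm _).2 ⟨a₁, ha₁, b₁, hb₁, rfl⟩) _
        ((hKm _).2 ⟨a₂, ha₂, b₂, hb₂, rfl⟩) _ ht₁ _ ht₂ h
      obtain ⟨h3, h4⟩ := hAB _ ha₁ _ ha₂ _ hb₁ _ hb₂ h1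
      exact ⟨h3, by rw [h4, h2]⟩
  -- left step, by symmetry
  have left : ∀ (A B : Set G) (K K' : Subgroup G), MulInj A B → 
      (∀ x, x ∈ K ↔ ∃ a ∈ A, ∃ b ∈ B, a * b = x) → K ≤ K' → ¬ K' ≤ K →
      ∃ A', A ⊂ A' ∧ MulInj A' B ∧ (∀ x, x ∈ K' ↔ ∃ a ∈ A', ∃ b ∈ B, a * b = x) := by
    intro A B K K' hAB hKm hKK' hlt
    obtain ⟨T, hT, h1T⟩ := K.exists_isComplement_left 1
    have hT' : ∀ h₁ ∈ K, ∀ h₂ ∈ K, ∀ t₁ ∈ T, ∀ t₂ ∈ T, t₁ * h₁ = t₂ * h₂ → h₁ = h₂ ∧ t₁ = t₂ := by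
      intro h₁ m₁ h₂ m₂ t₁ n₁ t₂ n₂ h
      have := @hT.1 (⟨t₁, n₁⟩, ⟨h₁, m₁⟩) (⟨t₂, n₂⟩, ⟨h₂, m₂⟩) h
      have h3 := congrArg (fun z => (z.1 : G)) this
      have h4 := congrArg (fun z => (z.2 : G)) this
      exact ⟨h4, h3⟩
    let A' : Set G := {x | ∃ t ∈ T, ∃ a ∈ A, t ∈ K' ∧ t * a = x}
    have hmem : ∀ x, x ∈ K' ↔ ∃ a ∈ A', ∃ b ∈ B, a * b = x := by
      intro x
      constructor
      · intro hx
        obtain ⟨⟨⟨t, ht⟩, ⟨h, hh⟩⟩, hht⟩ := hT.2 x
        simp only at hht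
        obtain ⟨a, ha, b, hb, hab⟩ := (hKm h).1 hh
        refine ⟨t * a, ⟨t, ht, a, ha, ?_, rfl⟩, b, hb, ?_⟩
        · have : t = x * h⁻¹ := by rw [← hht]; group
          rw [this]
          exact K'.mul_mem hx (K'.inv_mem (hKK' hh))
        · rw [mul_assoc, hab, hht]
      · rintro ⟨_, ⟨t, ht, a, ha, htK', rfl⟩, b, hb, rfl⟩
        rw [mul_assoc]
        exact K'.mul_mem htK' (hKK' ((hKm _).2 ⟨a, ha, b, hb, rfl⟩))
    have hsub : A ⊆ A' := fun a ha => ⟨1, h1T, a, ha, K'.one_mem, one_mul a⟩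
    refine ⟨A', ⟨hsub, ?_⟩, ?_, hmem⟩
    · intro hsub'
      apply hlt
      intro x hx
      obtain ⟨a, ha, b, hb, hab⟩ := (hmem x).1 hx
      exact (hKm x).2 ⟨a, hsub' ha, b, hb, hab⟩
    · rintro _ ⟨t₁, ht₁, a₁, ha₁, -, rfl⟩ _ ⟨t₂, ht₂, a₂, ha₂, -, rfl⟩ b₁ hb₁ b₂ hb₂ h
      rw [mul_assoc, mul_assoc] at h
      obtain ⟨h1, h2⟩ := hT' _ ((hKm _).2 ⟨a₁, ha₁, b₁, hb₁, rfl⟩) _
        ((hKm _).2 ⟨a₂, ha₂, b₂, hb₂, rfl⟩) _ ht₁ _ ht₂ h
      obtain ⟨h3, h4⟩ := hAB _ ha₁ _ ha₂ _ hb₁ _ hb₂ h1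
      exact ⟨by rw [h3, h2], h4⟩
  have grow : ∀ K : Subgroup G, (K : Set G).Finite → ∀ g : G, ∃ K' : Subgroup G,
      (K' : Set G).Finite ∧ K ≤ K' ∧ ¬ K' ≤ K ∧ g ∈ K' := by
    intro K hK g
    obtain ⟨x, hx⟩ := hK.exists_notMem
    refine ⟨Subgroup.closure (insert g (insert x (K : Set G))),
      hlf _ ((hK.insert x).insert g), ?_, ?_, ?_⟩
    · intro y hy
      exact Subgroup.subset_closure (mem_insert_of_mem _ (mem_insert_of_mem _ hy))
    · intro hle
      exact hx (hle (Subgroup.subset_closure (mem_insert_of_mem _ (mem_insert _ _))))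
    · exact Subgroup.subset_closure (mem_insert _ _)
  obtain ⟨K₁, hK₁, hKK₁, hnK₁, hgK₁⟩ := grow K hK g
  obtain ⟨K₂, hK₂, hKK₂, hnK₂, hgK₂⟩ := grow K₁ hK₁ g
  obtain ⟨B', hBB', hAB', hm'⟩ := right A B K K₁ hAB hKm hKK₁ hnK₁
  obtain ⟨A', hAA', hA'B', hm''⟩ := left A B' K₁ K₂ hAB' hm' hKK₂ hnK₂
  exact ⟨A', B', hAA', hBB', ⟨hA'B', K₂, hK₂, hm''⟩, (hm'' g).1 hgK₂⟩

/-- The conjugacy class of `g` is finite iff its centralizer has finite index. -/
theorem finite_class_iff {G : Type*} [Group G] (g : G) :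
    (Set.range fun x : G => x * g * x⁻¹).Finite ↔ (Subgroup.centralizer {g}).FiniteIndex := by
  let f : G ⧸ Subgroup.centralizer {g} → G :=
    Quotient.lift (fun x : G => x * g * x⁻¹) (by
      intro a b hab
      have h1 : a⁻¹ * b ∈ Subgroup.centralizer {g} := QuotientGroup.leftRel_apply.1 hab
      rw [Subgroup.mem_centralizer_singleton_iff] at h1
      have h2 : b * g = a * (a⁻¹ * b * g) := by group
      rw [h2, h1]
      group)
  have hf : ∀ x : G, f (x : G ⧸ Subgroup.centralizer {g}) = x * g * x⁻¹ := fun x => rfl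
  have hinj : Function.Injective f := by
    intro p q
    obtain ⟨a, rfl⟩ := QuotientGroup.mk_surjective p
    obtain ⟨b, rfl⟩ := QuotientGroup.mk_surjective q
    rw [hf, hf]
    intro h
    rw [QuotientGroup.eq, Subgroup.mem_centralizer_singleton_iff]
    have h2 : a⁻¹ * b * g = a⁻¹ * (b * g * b⁻¹) * b := by group
    rw [h2, ← h]
    group
  have hrange : Set.range f = Set.range fun x : G => x * g * x⁻¹ := by
    ext y
    constructor
    · rintro ⟨p, rfl⟩
      obtain ⟨a, rfl⟩ := QuotientGroup.mk_surjective p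
      exact ⟨a, rfl⟩
    · rintro ⟨a, rfl⟩
      exact ⟨(a : G ⧸ Subgroup.centralizer {g}), rfl⟩
  rw [← hrange]
  constructor
  · intro h
    have h' : Finite (Set.range f) := h.to_subtype
    have : Finite (G ⧸ Subgroup.centralizer {g}) := Finite.of_injective_finite_range hinj
    exact Subgroup.finiteIndex_of_finite_quotient
  · intro h
    exact Set.finite_range f

/-- The FC-centre. -/
def fc (G : Type*) [Group G] : Subgroup G where
  carrier := {g | (Set.range fun x : G => x * g * x⁻¹).Finite}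
  one_mem' := by
    refine (Set.finite_singleton (1 : G)).subset ?_
    rintro _ ⟨x, rfl⟩
    simp
  mul_mem' := by
    intro a b ha hb
    refine (Set.Finite.image2 (fun u v : G => u * v) ha hb).subset ?_
    rintro _ ⟨x, rfl⟩
    exact ⟨x * a * x⁻¹, ⟨x, rfl⟩, x * b * x⁻¹, ⟨x, rfl⟩, by group⟩
  inv_mem' := by
    intro a ha
    refine (ha.image (fun u : G => u⁻¹)).subset ?_
    rintro _ ⟨x, rfl⟩
    exact ⟨x * a * x⁻¹, ⟨x, rfl⟩, by group⟩

theorem mem_fc {G : Type*} [Group G] (g : G) :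
    g ∈ fc G ↔ (Set.range fun x : G => x * g * x⁻¹).Finite := Iff.rfl

theorem fc_normal (G : Type*) [Group G] : (fc G).Normal := by
  constructor
  intro n hn g
  refine Set.Finite.subset hn ?_
  rintro _ ⟨x, rfl⟩
  exact ⟨x * g, by group⟩

/-- The case of a finite FC-centre. -/
theorem fac_of_finite_fc {G : Type*} [Group G] [Countable G] [Infinite G]
    (hF : (fc G : Set G).Finite) : Fac G := by
  classical
  have hn : (fc G).Normal := fc_normal G
  have hFf : Finite (fc G) := hF.to_subtype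
  apply fac_of_quotient (fc G)
  have hcount : Countable (G ⧸ fc G) := QuotientGroup.mk_surjective.countable
  have hfib : ∀ y : G ⧸ fc G, {x : G | (x : G ⧸ fc G) = y}.Finite := by
    intro y
    obtain ⟨y, rfl⟩ := QuotientGroup.mk_surjective y
    refine (hF.image (fun f => y * f)).subset ?_
    intro x hx
    simp only [mem_ofPred_eq] at hx
    exact ⟨y⁻¹ * x, QuotientGroup.eq.1 hx.symm, by group⟩
  have hpre : ∀ S : Set (G ⧸ fc G), S.Finite → {x : G | (x : G ⧸ fc G) ∈ S}.Finite := by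
    intro S hS
    refine (hS.biUnion fun y _ => hfib y).subset ?_
    intro x hx
    exact mem_biUnion hx rfl
  have hinf : Infinite (G ⧸ fc G) := by
    rw [← not_finite_iff_infinite]
    intro hfin
    have := hpre Set.univ Set.finite_univ
    simp only [mem_univ, ofPred_true] at this
    exact Set.infinite_univ this
  apply fac_of_icc
  intro c hc hfi
  rw [← finite_class_iff] at hfi
  obtain ⟨c, rfl⟩ := QuotientGroup.mk_surjective c
  apply hc
  rw [QuotientGroup.eq_one_iff, mem_fc]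
  refine (hpre _ hfi).subset ?_
  rintro _ ⟨x, rfl⟩
  exact ⟨(x : G ⧸ fc G), rfl⟩

/-- The case of an infinite torsion FC-centre. -/
theorem fac_of_torsion_fc {G : Type*} [Group G] [Countable G]
    (hF : (fc G : Set G).Infinite) (htor : ∀ g ∈ fc G, IsOfFinOrder g) : Fac G := by
  classical
  apply fac_of_subgroup (fc G)
  have hinf : Infinite (fc G) := hF.to_subtype
  have hcount : Countable (fc G) := inferInstance
  apply fac_of_locallyFinite
  intro S hS
  -- `K` is a finitely generated torsion group with all centralizers of finite index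
  set K : Subgroup (fc G) := Subgroup.closure S with hK
  have hcl : ∀ s : K, (Subgroup.centralizer {s}).FiniteIndex := by
    intro s
    rw [← finite_class_iff]
    have h1 := (mem_fc _).1 s.1.2
    have hinj : Function.Injective fun x : K => ((x : fc G) : G) :=
      fun x y h => Subtype.ext (Subtype.ext h)
    refine Set.Finite.of_finite_image (f := fun x : K => ((x : fc G) : G)) ?_ hinj.injOn
    refine h1.subset ?_
    rintro _ ⟨_, ⟨x, rfl⟩, rfl⟩
    exact ⟨((x : fc G) : G), rfl⟩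
  have hfg : Group.FG K := by
    rw [Group.fg_iff_subgroup_fg]
    exact ⟨hS.toFinset, by simp [hK]⟩
  have hcen : (Subgroup.center K).FiniteIndex := by
    obtain ⟨T, hT⟩ := hfg.1
    rw [Subgroup.center_eq_iInf hT]
    apply Subgroup.finiteIndex_iInf'
    intro i _
    exact hcl i
  have hfg2 : Group.FG (Subgroup.center K) := inferInstance
  have htor2 : ∀ x : Subgroup.center K, IsOfFinOrder x := by
    intro x
    obtain ⟨n, hn, hn'⟩ := isOfFinOrder_iff_pow_eq_one.1 (htor _ x.1.1.2)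
    exact isOfFinOrder_iff_pow_eq_one.2 ⟨n, hn, Subtype.ext (Subtype.ext (Subtype.ext hn'))⟩
  let hcomm : CommGroup (Subgroup.center K) :=
    { (inferInstance : Group (Subgroup.center K)) with
      mul_comm := fun a b => Subtype.ext (Subgroup.mem_center_iff.1 b.2 a.1) }
  have hfin : Finite (Subgroup.center K) := CommGroup.finite_of_fg_isMulTorsion _ htor2
  have hfinK : Finite K := by
    have h1 : Finite (K ⧸ Subgroup.center K) := inferInstance
    exact Finite.of_equiv _ (Subgroup.groupEquivQuotientProdSubgroup (s := Subgroup.center K)).symm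
  exact Set.toFinite _

/-- The countable case. -/
theorem fac_countable (G : Type*) [Group G] [Countable G] [Infinite G] : Fac G := by
  by_cases h1 : ∃ g : G, ¬ IsOfFinOrder g
  · obtain ⟨g, hg⟩ := h1
    exact fac_of_not_isOfFinOrder g hg
  · push Not at h1
    by_cases hF : (fc G : Set G).Finite
    · exact fac_of_finite_fc hF
    · exact fac_of_torsion_fc hF (fun g _ => h1 g)

/-- Every infinite group `G` (countable or not) admits an exact factorization `G = AB` in which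
both `A` and `B` are infinite subsets. -/
theorem result (G : Type*) [Group G] [Infinite G] :
    ∃ A B : Set G, A.Infinite ∧ B.Infinite ∧
      ∀ g : G, ∃! p : G × G, p.1 ∈ A ∧ p.2 ∈ B ∧ p.1 * p.2 = g := by
  classical
  obtain ⟨f, hf⟩ := Infinite.natEmbedding G
  let H : Subgroup G := Subgroup.closure (Set.range f)
  have hcount : Countable H := by
    have hcs : Countable (Set.range f) := (Set.countable_range f).to_subtype
    have h2 : Countable (FreeGroup (Set.range f)) := Quot.mk_surjective.countable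
    have h3 : H = (FreeGroup.lift (fun x : Set.range f => (x : G))).range := by
      rw [FreeGroup.range_lift_eq_closure, Subtype.range_coe]
    rw [h3]
    exact (MonoidHom.rangeRestrict_surjective _).countable
  have hinf : Infinite H := by
    have : Function.Injective fun n : ℕ => (⟨f n, Subgroup.subset_closure ⟨n, rfl⟩⟩ : H) := by
      intro m n h
      exact hf (Subtype.ext_iff.1 h)
    exact Infinite.of_injective _ this
  exact fac_of_subgroup H (fac_countable H)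

end Pool.Agent.Results.MP_b3a091_al.ExactFactorization
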